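import Pool.Agent.TH402.FB.Col

/-!
# Sets that are large in every Bohr neighbourhood of zero are chromatically prime intersective
-/

set_option autoImplicit false

namespace Pool.Agent.Results.MP_5ab464_nt.LargeInBohrSets

open Filter

/-- `r` is in the Bohr neighbourhood of zero with frequencies `Θ` and radius `ρ`: for every `θ` in `Θ` the
distance of `r * θ` to the nearest integer is less than `ρ` -/
def InBohr (Θ : Finset ℝ) (ρ : ℝ) (r : ℕ) : Prop :=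
  ∀ θ ∈ Θ, |(r : ℝ) * θ - round ((r : ℝ) * θ)| < ρ

/-- the part of `R` in every Bohr neighbourhood of zero has positive upper Banach density -/
def Large (R : Set ℕ) : Prop := ∀ (Θ : Finset ℝ) (ρ : ℝ), 0 < ρ → ∃ δ : ℝ, 0 < δ ∧ ∀ L₀ : ℕ,
  ∃ L : ℕ, L₀ ≤ L ∧ ∃ u : ℕ, δ * L ≤ ({r : ℕ | u < r ∧ r ≤ u + L ∧ InBohr Θ ρ r ∧ r ∈ R}.ncard : ℝ)

/-- `r` is the difference of many pairs of primes of the same colour: for every `η > 0` there are arbitrarily
large `x` with at least `x ^ (1 - η)` primes `p ≤ x`, `p ≡ a (mod q)`, such that `p + r` is a prime of the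
same colour and there are at most `k` primes in `(p, p + r]` -/
def Mono (q a k : ℕ) (col : ℕ → Fin k) (r : ℕ) : Prop := ∀ η : ℝ, 0 < η → ∃ᶠ x : ℝ in atTop,
  x ^ (1 - η) ≤ ({p : ℕ | p.Prime ∧ (p + r).Prime ∧ (p : ℝ) ≤ x ∧ p ≡ a [MOD q] ∧ col p = col (p + r) ∧
    Nat.primeCounting (p + r) ≤ Nat.primeCounting p + k}.ncard : ℝ)

/-- Let `R` be large. For every colouring of the primes with finitely many colours (and every reduced residue
class), the set of the `r` in `R` that are the difference of many pairs of primes of the same colour (and of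
the class) is large. In particular it is infinite: `R` is chromatically prime intersective. -/
theorem result (R : Set ℕ) (hR : Large R) (q a k : ℕ) (hq : 1 ≤ q) (ha : a.Coprime q)
    (col : ℕ → Fin k) : Large {r | r ∈ R ∧ Mono q a k col r} := by
  classical
  obtain ⟨Θ₁, ρ₁, hρ₁, H⟩ := Pool.Agent.TH402.FB.colour q a k hq ha col
  intro Θ ρ hρ
  obtain ⟨δ, hδ, h⟩ := hR (Θ ∪ Θ₁) (min ρ ρ₁) (lt_min hρ hρ₁)
  obtain ⟨L₁, h₁⟩ := H (δ / 2) (by positivity)
  refine ⟨δ / 2, by positivity, fun L₀ => ?_⟩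
  obtain ⟨L, hL, u, hu⟩ := h (max L₀ L₁)
  refine ⟨L, (le_max_left _ _).trans hL, u, ?_⟩
  have h2 := h₁ L ((le_max_right _ _).trans hL) u
  obtain ⟨S, hS⟩ : ∃ S : Set ℕ, S = {r : ℕ | u < r ∧ r ≤ u + L ∧ InBohr Θ ρ r ∧
    r ∈ {r | r ∈ R ∧ Mono q a k col r}} := ⟨_, rfl⟩
  obtain ⟨E, hE⟩ : ∃ E : Set ℕ, E = {d : ℕ | u < d ∧ d ≤ u + L ∧
    (∀ θ ∈ Θ₁, |(d : ℝ) * θ - round ((d : ℝ) * θ)| < ρ₁) ∧
        ¬ ∀ η : ℝ, 0 < η → ∃ᶠ x : ℝ in atTop, x ^ (1 - η) ≤
          ({p : ℕ | p.Prime ∧ (p + d).Prime ∧ (p : ℝ) ≤ x ∧ p ≡ a [MOD q] ∧ col p = col (p + d) ∧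
            Nat.primeCounting (p + d) ≤ Nat.primeCounting p + k}.ncard : ℝ)} := ⟨_, rfl⟩
  rw [← hE] at h2
  rw [← hS]
  have hSf : S.Finite := by
    rw [hS]
    exact (Set.finite_le_nat (u + L)).subset fun d hd => hd.2.1
  have hEf : E.Finite := by
    rw [hE]
    exact (Set.finite_le_nat (u + L)).subset fun d hd => hd.2.1
  have h3 : {r : ℕ | u < r ∧ r ≤ u + L ∧ InBohr (Θ ∪ Θ₁) (min ρ ρ₁) r ∧ r ∈ R} ⊆ S ∪ E := by
    rintro r ⟨g1, g2, g3, g4⟩
    by_cases g5 : Mono q a k col r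
    · left
      rw [hS]
      exact ⟨g1, g2, fun θ hθ => (g3 θ (Finset.mem_union_left _ hθ)).trans_le (min_le_left _ _), g4, g5⟩
    · right
      rw [hE]
      exact ⟨g1, g2, fun θ hθ => (g3 θ (Finset.mem_union_right _ hθ)).trans_le (min_le_right _ _), g5⟩
  have h4 := Set.ncard_le_ncard h3 (hSf.union hEf)
  have h5 := Set.ncard_union_le S E
  have h6 : (({r : ℕ | u < r ∧ r ≤ u + L ∧ InBohr (Θ ∪ Θ₁) (min ρ ρ₁) r ∧ r ∈ R}.ncard : ℕ) : ℝ) ≤
      S.ncard + E.ncard := by exact_mod_cast h4.trans h5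
  linarith

end Pool.Agent.Results.MP_5ab464_nt.LargeInBohrSets
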